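import Mathlib

set_option autoImplicit false

/-!
Graphs with a maximum neighbourhood ordering (dually chordal graphs): the square is
`(Δ + 1)`-colourable.  Interval graphs have such an ordering.
-/

namespace Pool.Agent.TH525.FRG

open Finset

/-- A maximum neighbourhood ordering of `G`: an injective numbering `ρ` of the vertices such that,
for every `v`, some `u` in the closed neighbourhood of `v`, not before `v`, has the property that
the closed neighbourhood of `u` contains every vertex `x`, not before `v`, that lies in the closed
neighbourhood of a vertex `w`, not before `v`, of the closed neighbourhood of `v`. -/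
def MaxNbOrder {V : Type} (G : SimpleGraph V) (ρ : V → ℕ) : Prop :=
  Function.Injective ρ ∧ ∀ v, ∃ u, (u = v ∨ G.Adj v u) ∧ ρ v ≤ ρ u ∧
    ∀ w x, ρ v ≤ ρ w → ρ v ≤ ρ x → (w = v ∨ G.Adj v w) → (x = w ∨ G.Adj w x) →
      (x = u ∨ G.Adj u x)

theorem square_col {V : Type} [Finite V] (G : SimpleGraph V) (D : ℕ)
    (hD : ∀ v, (G.neighborSet v).ncard ≤ D) (ρ : V → ℕ) (hρ : MaxNbOrder G ρ) :
    ∃ f : V → ℕ, (∀ v, f v < D + 1) ∧ (∀ x y, G.Adj x y → f x ≠ f y) ∧
      ∀ x y z, G.Adj z x → G.Adj z y → f x = f y → x = y := by
  classical
  have := Fintype.ofFinite V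
  have main : ∀ j k : ℕ, (∀ v, ρ v < k + j) → ∃ f : V → ℕ, (∀ v, f v < D + 1) ∧
      ∀ x y, k ≤ ρ x → k ≤ ρ y → x ≠ y →
        (G.Adj x y ∨ ∃ z, k ≤ ρ z ∧ G.Adj z x ∧ G.Adj z y) → f x ≠ f y := by
    intro j
    induction j with
    | zero =>
      intro k hk
      refine ⟨fun _ => 0, fun _ => Nat.succ_pos D, ?_⟩
      intro x y hx
      have := hk x
      omega
    | succ j ih =>
      intro k hk
      obtain ⟨f, hf, hf2⟩ := ih (k + 1) (fun v => by have := hk v; omega)
      by_cases hv : ∃ v, ρ v = k
      swap
      · push Not at hv
        have hk' : ∀ x, k ≤ ρ x → k + 1 ≤ ρ x := by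
          intro x hx
          have := hv x
          omega
        refine ⟨f, hf, ?_⟩
        intro x y hx hy hxy h
        refine hf2 x y (hk' x hx) (hk' y hy) hxy ?_
        rcases h with h | ⟨z, hz, h1, h2⟩
        · exact Or.inl h
        · exact Or.inr ⟨z, hk' z hz, h1, h2⟩
      obtain ⟨v, hv⟩ := hv
      have hlt : ∀ x, k ≤ ρ x → x ≠ v → k + 1 ≤ ρ x := by
        intro x hx hxv
        have : ρ x ≠ k := fun h => hxv (hρ.1 (by rw [h, hv]))
        omega
      obtain ⟨u, hu1, hu2, hu3⟩ := hρ.2 v
      rw [hv] at hu2 hu3
      by_cases huv : u = v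
      · -- `v` dominates its component
        subst huv
        set C : Finset V := univ.filter (fun x => k ≤ ρ x ∧ (x = u ∨ G.Adj u x)) with hC
        have hCcard : C.card ≤ D + 1 := by
          have h1 : C ⊆ insert u (G.neighborSet u).toFinset := by
            intro x hx
            rw [hC, mem_filter] at hx
            rw [mem_insert, Set.mem_toFinset]
            exact hx.2.2
          refine (card_le_card h1).trans ((card_insert_le _ _).trans ?_)
          have h2 := hD u
          rw [Set.ncard_eq_toFinset_card'] at h2
          omega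
        obtain ⟨g, hg1, hg2⟩ : ∃ g : V → ℕ, Set.InjOn g C ∧ ∀ x ∈ C, g x < D + 1 := by
          let e := C.equivFin
          refine ⟨fun x => if h : x ∈ C then (e ⟨x, h⟩ : ℕ) else 0, ?_, ?_⟩
          · intro x hx y hy hxy
            have hx' : x ∈ C := hx
            have hy' : y ∈ C := hy
            simp only [hx', hy', dif_pos] at hxy
            have := e.injective (Fin.ext hxy)
            exact congrArg Subtype.val this
          · intro x hx
            simp only [hx, dif_pos]
            exact lt_of_lt_of_le (e ⟨x, hx⟩).2 hCcard
        have hclosed : ∀ x y, x ∈ C → k ≤ ρ y → G.Adj x y → y ∈ C := by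
          intro x y hx hy hxy
          rw [hC, mem_filter] at hx ⊢
          exact ⟨mem_univ _, hy, hu3 x y hx.2.1 hy hx.2.2 (Or.inr hxy)⟩
        have huC : u ∈ C := by
          rw [hC, mem_filter]; exact ⟨mem_univ _, by omega, Or.inl rfl⟩
        refine ⟨fun x => if x ∈ C then g x else f x, ?_, ?_⟩
        · intro x
          by_cases hx : x ∈ C
          · simp only [hx, if_true]; exact hg2 x hx
          · simp only [hx, if_false]; exact hf x
        · intro x y hx hy hxy h
          by_cases hxC : x ∈ C
          · have hyC : y ∈ C := by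
              rcases h with h | ⟨z, hz, h1, h2⟩
              · exact hclosed x y hxC hy h
              · exact hclosed z y (hclosed x z hxC hz h1.symm) hy h2
            simp only [hxC, hyC, if_true]
            exact fun h' => hxy (hg1 hxC hyC h')
          · have hyC : y ∉ C := by
              intro hyC
              apply hxC
              rcases h with h | ⟨z, hz, h1, h2⟩
              · exact hclosed y x hyC hx h.symm
              · exact hclosed z x (hclosed y z hyC hz h2.symm) hx h1
            simp only [hxC, hyC, if_false]
            refine hf2 x y (hlt x hx (fun h' => hxC (h' ▸ huC)))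
              (hlt y hy (fun h' => hyC (h' ▸ huC))) hxy ?_
            rcases h with h | ⟨z, hz, h1, h2⟩
            · exact Or.inl h
            · refine Or.inr ⟨z, hlt z hz ?_, h1, h2⟩
              rintro rfl
              exact hxC (hclosed z x huC hx h1)
      · have huadj : G.Adj v u := hu1.resolve_left huv
        have huk : k + 1 ≤ ρ u := hlt u hu2 huv
        -- the forbidden colours
        set B : Finset V := (insert u (G.neighborSet u).toFinset).erase v with hB
        have hBcard : B.card ≤ D := by
          have h1 : v ∈ insert u (G.neighborSet u).toFinset := by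
            rw [mem_insert, Set.mem_toFinset]; exact Or.inr huadj.symm
          have h2 := card_erase_of_mem h1
          have h3 := card_insert_le u (G.neighborSet u).toFinset
          have h4 := hD u
          rw [Set.ncard_eq_toFinset_card'] at h4
          rw [hB, h2]
          omega
        obtain ⟨c, hc, hcB⟩ : ∃ c ∈ range (D + 1), c ∉ B.image f := by
          by_contra hcon
          push Not at hcon
          have h1 : range (D + 1) ⊆ B.image f := fun c hc => hcon c hc
          have h2 := card_le_card h1
          rw [card_range] at h2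
          have h3 := card_image_le (s := B) (f := f)
          omega
        have hcB' : ∀ y, y ≠ v → (y = u ∨ G.Adj u y) → f y ≠ c := by
          intro y hyv hy h
          apply hcB
          rw [mem_image]
          refine ⟨y, ?_, h⟩
          rw [hB, mem_erase, mem_insert, Set.mem_toFinset]
          exact ⟨hyv, hy⟩
        have hnear : ∀ y, k ≤ ρ y → (G.Adj v y ∨ ∃ z, k ≤ ρ z ∧ G.Adj z v ∧ G.Adj z y) →
            (y = u ∨ G.Adj u y) := by
          intro y hy h
          rcases h with h | ⟨z, hz, h1, h2⟩
          · exact hu3 v y hv.ge hy (Or.inl rfl) (Or.inr h)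
          · exact hu3 z y hz hy (Or.inr h1.symm) (Or.inr h2)
        refine ⟨fun x => if x = v then c else f x, ?_, ?_⟩
        · intro x
          by_cases hx : x = v
          · simp only [hx, if_true]; exact mem_range.mp hc
          · simp only [hx, if_false]; exact hf x
        · intro x y hx hy hxy h
          by_cases hxv : x = v
          · subst hxv
            have hyv : y ≠ x := hxy.symm
            simp only [if_true, hyv, if_false]
            exact (hcB' y hyv (hnear y hy h)).symm
          · by_cases hyv : y = v
            · subst hyv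
              simp only [if_true, hxv, if_false]
              refine hcB' x hxv (hnear x hx ?_)
              rcases h with h | ⟨z, hz, h1, h2⟩
              · exact Or.inl h.symm
              · exact Or.inr ⟨z, hz, h2, h1⟩
            · simp only [hxv, hyv, if_false]
              have hx' := hlt x hx hxv
              have hy' := hlt y hy hyv
              refine hf2 x y hx' hy' hxy ?_
              rcases h with h | ⟨z, hz, h1, h2⟩
              · exact Or.inl h
              · by_cases hzv : z = v
                · subst hzv
                  have h3 := hnear x hx (Or.inl h1)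
                  have h4 := hnear y hy (Or.inl h2)
                  rcases h3 with h3 | h3
                  · subst h3
                    exact Or.inl (h4.resolve_left hxy.symm)
                  · rcases h4 with h4 | h4
                    · subst h4
                      exact Or.inl h3.symm
                    · exact Or.inr ⟨u, huk, h3, h4⟩
                · exact Or.inr ⟨z, hlt z hz hzv, h1, h2⟩
  obtain ⟨K, hK⟩ : ∃ K, ∀ v, ρ v < K := by
    refine ⟨(univ.image ρ).sup id + 1, fun v => ?_⟩
    have : ρ v ≤ (univ.image ρ).sup id :=
      le_sup (f := id) (mem_image.mpr ⟨v, mem_univ _, rfl⟩)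
    omega
  obtain ⟨f, hf, hf2⟩ := main K 0 (fun v => by have := hK v; omega)
  refine ⟨f, hf, ?_, ?_⟩
  · intro x y h
    exact hf2 x y (Nat.zero_le _) (Nat.zero_le _) h.ne (Or.inl h)
  · intro x y z h1 h2 h3
    by_contra hne
    exact hf2 x y (Nat.zero_le _) (Nat.zero_le _) hne (Or.inr ⟨z, Nat.zero_le _, h1, h2⟩) h3

/-- Every finite family of reals can be numbered in increasing order. -/
theorem exists_rank {V : Type} [Finite V] (b : V → ℝ) :
    ∃ ρ : V → ℕ, Function.Injective ρ ∧ ∀ v w, ρ v ≤ ρ w → b v ≤ b w := by
  classical
  have := Fintype.ofFinite V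
  let e := Fintype.equivFin V
  let σ := Tuple.sort (b ∘ e.symm)
  have hσ : Monotone ((b ∘ e.symm) ∘ σ) := Tuple.monotone_sort _
  refine ⟨fun v => (σ.symm (e v)).val, ?_, ?_⟩
  · intro v w h
    exact e.injective (σ.symm.injective (Fin.ext h))
  · intro v w h
    have h1 : σ.symm (e v) ≤ σ.symm (e w) := h
    have h2 := hσ h1
    simpa using h2

/-- Interval graphs have a maximum neighbourhood ordering. -/
theorem interval_order {V : Type} [Finite V] (G : SimpleGraph V) (a b : V → ℝ)
    (hab : ∀ v, a v ≤ b v) (hG : ∀ u v, G.Adj u v ↔ u ≠ v ∧ a u ≤ b v ∧ a v ≤ b u) :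
    ∃ ρ : V → ℕ, MaxNbOrder G ρ := by
  classical
  have := Fintype.ofFinite V
  obtain ⟨ρ, hρ, hmon⟩ := exists_rank b
  have hcl : ∀ v w, (w = v ∨ G.Adj v w) ↔ a v ≤ b w ∧ a w ≤ b v := by
    intro v w
    constructor
    · rintro (rfl | h)
      · exact ⟨hab _, hab _⟩
      · exact ((hG v w).1 h).2
    · rintro ⟨h1, h2⟩
      by_cases h : w = v
      · exact Or.inl h
      · exact Or.inr ((hG v w).2 ⟨fun h' => h h'.symm, h1, h2⟩)
  refine ⟨ρ, hρ, fun v => ?_⟩
  obtain ⟨u, hu, hmax⟩ := Finset.exists_max_image
    (univ.filter (fun w => ρ v ≤ ρ w ∧ (w = v ∨ G.Adj v w))) b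
    ⟨v, by rw [mem_filter]; exact ⟨mem_univ _, le_rfl, Or.inl rfl⟩⟩
  rw [mem_filter] at hu
  refine ⟨u, hu.2.2, hu.2.1, ?_⟩
  intro w x hw hx hvw hwx
  have h1 : b w ≤ b u := hmax w (by rw [mem_filter]; exact ⟨mem_univ _, hw, hvw⟩)
  rw [hcl] at hwx ⊢
  have h2 := (hcl v u).1 hu.2.2
  have h3 := hmon v x hx
  constructor
  · linarith [h2.2]
  · linarith [hwx.2]

end Pool.Agent.TH525.FRG
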