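import Pool.Agent.TH525.LAD.Konig
import Pool.Agent.TH525.FRG.Hom

set_option autoImplicit false

/-!
The quotient theorem: linear forests of a quotient multigraph lift.
-/

namespace Pool.Agent.TH525.FRG

open Finset H931R3.LA SimpleGraph

/-- A graph with a rank function is a linear forest. -/
theorem isLF_of_rank {V : Type} (F : SimpleGraph V) (pos : V → ℕ)
    (hne : ∀ u v, F.Adj u v → pos u ≠ pos v)
    (hlo : ∀ u v w, F.Adj u v → F.Adj u w → pos v < pos u → pos w < pos u → v = w)
    (hhi : ∀ u v w, F.Adj u v → F.Adj u w → pos u < pos v → pos u < pos w → v = w) : IsLF F := by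
  classical
  constructor
  · intro v c hc
    obtain ⟨u, hu, hmax⟩ := Finset.exists_max_image c.support.toFinset pos
      ⟨v, by simp⟩
    rw [List.mem_toFinset] at hu
    have hcyc : (c.rotate u hu).IsCycle := hc.rotate hu
    set d := c.rotate u hu with hd
    have hnil : ¬ d.Nil := hcyc.not_nil
    have h1 : F.Adj u d.snd := d.adj_snd hnil
    have h2 : F.Adj d.penultimate u := d.adj_penultimate hnil
    have hne' : d.snd ≠ d.penultimate := hcyc.snd_ne_penultimate
    have hm : ∀ x ∈ d.support, F.Adj u x → pos x < pos u := by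
      intro x hx hxu
      rw [hd, SimpleGraph.Walk.mem_support_rotate_iff] at hx
      have h3 := hmax x (by rw [List.mem_toFinset]; exact hx)
      have h4 := hne u x hxu
      omega
    exact hne' (hlo u d.snd d.penultimate h1 h2.symm (hm _ (d.getVert_mem_support 1) h1)
      (hm _ (d.getVert_mem_support _) h2.symm))
  · intro v
    have h1 : Set.InjOn (fun w => decide (pos w < pos v)) (F.neighborSet v) := by
      intro a ha b hb hab
      have ha1 : F.Adj v a := ha
      have hb1 : F.Adj v b := hb
      have ha3 := hne v a ha1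
      have hb3 := hne v b hb1
      simp only [decide_eq_decide] at hab
      by_cases h : pos a < pos v
      · exact hlo v a b ha1 hb1 h (hab.1 h)
      · have h' : ¬ pos b < pos v := fun h'' => h (hab.2 h'')
        exact hhi v a b ha1 hb1 (by omega) (by omega)
    rw [← h1.ncard_image]
    refine le_trans (Set.ncard_le_ncard (Set.subset_univ _) Set.finite_univ) ?_
    rw [Set.ncard_univ]
    simp

/-- the `n`-th element of a finite set of labels -/
def nthOf {k : ℕ} (T : Finset (Fin k)) (n : ℕ) : ℕ :=
  if h : n < T.card then (T.orderEmbOfFin rfl ⟨n, h⟩ : Fin k) else 0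

theorem nthOf_spec {k : ℕ} (T : Finset (Fin k)) {n : ℕ} (h : n < T.card) :
    ∃ c ∈ T, nthOf T n = (c : ℕ) := by
  refine ⟨T.orderEmbOfFin rfl ⟨n, h⟩, T.orderEmbOfFin_mem rfl _, ?_⟩
  unfold nthOf
  rw [dif_pos h]

theorem nthOf_inj {k : ℕ} (T : Finset (Fin k)) {n m : ℕ} (hn : n < T.card) (hm : m < T.card)
    (h : nthOf T n = nthOf T m) : n = m := by
  unfold nthOf at h
  rw [dif_pos hn, dif_pos hm] at h
  have := (T.orderEmbOfFin rfl).injective (Fin.ext h)
  exact congrArg Fin.val this

/-- Splitting the edges between any two classes into matchings. -/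
theorem exists_slots2 {V W : Type} [Finite V] (G : SimpleGraph V) (f : V → W)
    (β : Sym2 W → ℕ) (hne : ∀ u v, G.Adj u v → f u ≠ f v)
    (hβ : ∀ u j, {v | G.Adj u v ∧ f v = j}.ncard ≤ β s(f u, j)) :
    ∃ s : V → V → ℕ, (∀ u v, s u v = s v u) ∧
      (∀ u v, G.Adj u v → s u v < β s(f u, f v)) ∧
      ∀ u v w, G.Adj u v → G.Adj u w → f v = f w → s u v = s u w → v = w := by
  classical
  have := Fintype.ofFinite V
  have key : ∀ e : Sym2 W, ∃ φ : V → V → ℕ, (∀ u v, φ u v = φ v u) ∧
      (∀ u v, G.Adj u v → s(f u, f v) = e → φ u v < β e) ∧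
      ∀ u v w, G.Adj u v → G.Adj u w → s(f u, f v) = e → s(f u, f w) = e →
        φ u v = φ u w → v = w := by
    intro e
    induction e using Sym2.inductionOn with
    | hf a b =>
      let Γ : SimpleGraph V :=
        { Adj := fun x y => G.Adj x y ∧ s(f x, f y) = s(a, b)
          symm := ⟨fun _ _ h => ⟨h.1.symm, by rw [Sym2.eq_swap]; exact h.2⟩⟩
          loopless := ⟨fun x h => G.loopless.irrefl x h.1⟩ }
      have hχ : ∀ x y, Γ.Adj x y → decide (f x = a) ≠ decide (f y = a) := by
        rintro x y ⟨h1, h2⟩ h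
        have h4 := hne _ _ h1
        rw [decide_eq_decide] at h
        rw [Sym2.eq_iff] at h2
        rcases h2 with ⟨h2, h3⟩ | ⟨h2, h3⟩
        · exact h4 (h2.trans (h.1 h2).symm)
        · exact h4 ((h.2 h3).trans h3.symm)
      have hdeg : ∀ x, Γ.degree x ≤ β s(a, b) := by
        intro x
        by_cases hx : ∃ j, s(f x, j) = s(a, b)
        · obtain ⟨j, hj⟩ := hx
          have hbx := hβ x j
          rw [hj] at hbx
          refine le_trans ?_ hbx
          rw [← SimpleGraph.card_neighborFinset_eq_degree]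
          rw [Set.ncard_eq_toFinset_card']
          apply Finset.card_le_card
          intro y hy
          rw [SimpleGraph.mem_neighborFinset] at hy
          rw [Set.mem_toFinset]
          refine ⟨hy.1, ?_⟩
          have h1 := hy.2
          rw [← hj] at h1
          rw [Sym2.eq_iff] at h1
          rcases h1 with ⟨_, h3⟩ | ⟨h2, h3⟩
          · exact h3
          · rw [h3, h2]
        · have h0 : Γ.degree x = 0 := by
            rw [← SimpleGraph.card_neighborFinset_eq_degree, Finset.card_eq_zero,
              Finset.eq_empty_iff_forall_notMem]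
            intro y hy
            rw [SimpleGraph.mem_neighborFinset] at hy
            exact hx ⟨f y, hy.2⟩
          omega
      obtain ⟨φ, h1, h2, h3⟩ := LAD.konig_graph Γ (β s(a, b)) (fun x => decide (f x = a)) hχ hdeg
      exact ⟨φ, h1, fun u v h e => h2 u v ⟨h, e⟩,
        fun u v w hv hw ev ew => h3 u v w ⟨hv, ev⟩ ⟨hw, ew⟩⟩
  choose φ h1 h2 h3 using key
  refine ⟨fun u v => φ s(f u, f v) u v, ?_, ?_, ?_⟩
  · intro u v
    change φ s(f u, f v) u v = φ s(f v, f u) v u
    rw [Sym2.eq_swap, h1]
  · intro u v h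
    exact h2 _ u v h rfl
  · intro u v w hv hw hf hs
    have hs' : φ s(f u, f v) u v = φ s(f u, f w) u w := hs
    rw [← hf] at hs'
    exact h3 s(f u, f v) u v w hv hw rfl (by rw [← hf]) hs'

/-- **The quotient theorem.**  Let `F 0, …, F (k-1)` be linear forests on a set `W` and let
`f : V → W` be such that every vertex `u` of `G` has at most as many neighbours in the class
`f ⁻¹ j` as there are forests containing the edge `f u, j`.  Then `G` is the union of `k` linear
forests. -/
theorem cov_quot {V W : Type} [Finite V] [Finite W] (G : SimpleGraph V) (k : ℕ)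
    (F : Fin k → SimpleGraph W) (hF : ∀ c, IsLF (F c)) (f : V → W)
    (h : ∀ u j, {v | G.Adj u v ∧ f v = j}.ncard ≤ {c | (F c).Adj (f u) j}.ncard) : Cov G k := by
  classical
  have := Fintype.ofFinite V
  have hsymT : ∀ i j : W, {c | (F c).Adj i j} = {c | (F c).Adj j i} := by
    intro i j
    ext c
    exact (F c).adj_comm i j
  let β : Sym2 W → Finset (Fin k) := fun e => univ.filter (fun c => e ∈ (F c).edgeSet)
  have hβ' : ∀ i j, (β s(i, j)).card = {c | (F c).Adj i j}.ncard := by
    intro i j
    rw [Set.ncard_eq_toFinset_card']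
    congr 1
    ext c
    simp [β]
  have hne : ∀ u v, G.Adj u v → f u ≠ f v := by
    intro u v huv hf
    have h1 := h u (f v)
    have h2 : {c | (F c).Adj (f u) (f v)} = ∅ := by
      ext c
      simp only [Set.mem_setOf_eq, Set.mem_empty_iff_false, iff_false]
      rw [hf]
      exact (F c).loopless.irrefl _
    rw [h2, Set.ncard_empty, Nat.le_zero, Set.ncard_eq_zero (Set.toFinite _)] at h1
    have h3 : v ∈ {w | G.Adj u w ∧ f w = f v} := ⟨huv, rfl⟩
    rw [h1] at h3
    exact h3
  obtain ⟨s, hs1, hs2, hs3⟩ := exists_slots2 G f (fun e => (β e).card) hne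
    (fun u j => by rw [hβ']; exact h u j)
  let φ : V → V → ℕ := fun u v => nthOf (β s(f u, f v)) (s u v)
  have hφs : ∀ u v, φ u v = φ v u := by
    intro u v
    simp only [φ]
    rw [Sym2.eq_swap, hs1]
  have hφ : ∀ u v, G.Adj u v → ∃ c : Fin k, φ u v = c ∧ (F c).Adj (f u) (f v) := by
    intro u v huv
    obtain ⟨c, hc, e⟩ := nthOf_spec _ (hs2 u v huv)
    refine ⟨c, e, ?_⟩
    simpa [β] using hc
  let P : Fin k → SimpleGraph V := fun c =>
    { Adj := fun u v => G.Adj u v ∧ φ u v = c
      symm := ⟨fun u v h => ⟨h.1.symm, by rw [← hφs u v]; exact h.2⟩⟩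
      loopless := ⟨fun u h => G.loopless.irrefl u h.1⟩ }
  refine ⟨P, fun c => ?_, ?_⟩
  · have hPeq : P c = pull (P c) (F c) f := by
      ext u v
      constructor
      · intro huv
        refine ⟨huv, ?_⟩
        obtain ⟨c', e, hc'⟩ := hφ u v huv.1
        have e2 : φ u v = c := huv.2
        have : c' = c := Fin.ext (by rw [← e, e2])
        rw [← this]; exact hc'
      · intro huv; exact huv.1
    rw [hPeq]
    refine pull_isLF (P c) (F c) f ?_ (hF c)
    intro u v w hv hw hf
    refine hs3 u v w hv.1 hw.1 hf ?_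
    have e1 : nthOf (β s(f u, f v)) (s u v) = c := hv.2
    have e2 : nthOf (β s(f u, f w)) (s u w) = c := hw.2
    have h1 := hs2 u v hv.1
    have h2 := hs2 u w hw.1
    rw [← hf] at e2 h2
    exact nthOf_inj _ h1 h2 (by rw [e1, e2])
  · ext u v
    rw [SimpleGraph.iSup_adj]
    constructor
    · rintro ⟨c, hc⟩; exact hc.1
    · intro huv
      obtain ⟨c, e, _⟩ := hφ u v huv
      exact ⟨c, huv, e⟩

/-- The cycle on `ZMod m` without the edge from `c` to `c + 1`. -/
def cyclePath (m : ℕ) (c : ℕ) : SimpleGraph (ZMod m) where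
  Adj i j := i ≠ j ∧ ((j = i + 1 ∧ i ≠ (c : ZMod m)) ∨ (i = j + 1 ∧ j ≠ (c : ZMod m)))
  symm := ⟨fun _ _ h => ⟨h.1.symm, h.2.symm⟩⟩
  loopless := ⟨fun _ h => h.1 rfl⟩

theorem cyclePath_isLF (m c : ℕ) (hm : 2 ≤ m) : IsLF (cyclePath m c) := by
  have : NeZero m := ⟨by omega⟩
  have : Fact (1 < m) := ⟨by omega⟩
  let pos : ZMod m → ℕ := fun x => (x - c - 1).val
  have hstep : ∀ i : ZMod m, i ≠ (c : ZMod m) → pos (i + 1) = pos i + 1 := by
    intro i hi
    have h1 : (i + 1 - c - 1 : ZMod m) = (i - c - 1) + 1 := by ring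
    simp only [pos]
    rw [h1, ZMod.val_add, ZMod.val_one]
    apply Nat.mod_eq_of_lt
    have h2 : (i - c - 1 : ZMod m).val < m := ZMod.val_lt _
    have h3 : (i - c - 1 : ZMod m).val ≠ m - 1 := by
      intro h3
      apply hi
      have h4 : ((i - c - 1 : ZMod m).val : ZMod m) = ((m - 1 : ℕ) : ZMod m) := by rw [h3]
      rw [ZMod.natCast_zmod_val, Nat.cast_sub (by omega), ZMod.natCast_self] at h4
      have h5 : i = (i - c - 1 : ZMod m) + c + 1 := by ring
      rw [h5, h4]
      push_cast
      ring
    omega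
  have hstep' : ∀ i j, (cyclePath m c).Adj i j → (pos j = pos i + 1 ∧ j = i + 1) ∨
      (pos i = pos j + 1 ∧ i = j + 1) := by
    intro i j h
    rcases h.2 with ⟨h1, h2⟩ | ⟨h1, h2⟩
    · left; exact ⟨by rw [h1]; exact hstep i h2, h1⟩
    · right; exact ⟨by rw [h1]; exact hstep j h2, h1⟩
  refine isLF_of_rank _ pos ?_ ?_ ?_
  · intro u v h
    rcases hstep' u v h with h | h <;> omega
  · intro u v w hv hw h1 h2
    rcases hstep' u v hv with h | h
    · omega
    rcases hstep' u w hw with h' | h'
    · omega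
    have := h.2.symm.trans h'.2
    exact add_right_cancel this
  · intro u v w hv hw h1 h2
    rcases hstep' u v hv with h | h
    · rcases hstep' u w hw with h' | h'
      · rw [h.2, h'.2]
      · omega
    · omega

/-- Circular layouts: if the classes `f ⁻¹ i`, `i ∈ ℤ/m`, are independent, edges only join
consecutive classes and every vertex has at most `β` neighbours in the next and at most `β` in the
previous class, then `β + t` linear forests suffice as soon as `β ≤ t (m - 1)`. -/
theorem cov_circular {V : Type} [Finite V] (G : SimpleGraph V) (m β t : ℕ) (hm : 3 ≤ m)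
    (ht : β ≤ t * (m - 1)) (f : V → ZMod m)
    (hadj : ∀ u v, G.Adj u v → f v = f u + 1 ∨ f u = f v + 1)
    (hnext : ∀ u, {v | G.Adj u v ∧ f v = f u + 1}.ncard ≤ β)
    (hprev : ∀ u, {v | G.Adj u v ∧ f u = f v + 1}.ncard ≤ β) : Cov G (β + t) := by
  classical
  have : NeZero m := ⟨by omega⟩
  have : Fact (1 < m) := ⟨by omega⟩
  refine cov_quot G (β + t) (fun c => cyclePath m c) (fun c => cyclePath_isLF m c (by omega)) f ?_
  have hone : (1 : ZMod m) ≠ 0 := one_ne_zero
  -- the number of forests that contain a given edge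
  have hcount : ∀ i : ZMod m, β ≤ {c : Fin (β + t) | i ≠ ((c : ℕ) : ZMod m)}.ncard := by
    intro i
    have h1 : {c : Fin (β + t) | i = ((c : ℕ) : ZMod m)}.ncard ≤ t := by
      have h2 : Set.InjOn (fun c : Fin (β + t) => (c : ℕ) / m)
          {c : Fin (β + t) | i = ((c : ℕ) : ZMod m)} := by
        intro c hc d hd hcd
        have h3 : ((c : ℕ) : ZMod m) = ((d : ℕ) : ZMod m) := by
          rw [← (show i = _ from hc), ← (show i = _ from hd)]
        rw [ZMod.natCast_eq_natCast_iff] at h3
        have h4 : (c : ℕ) / m = (d : ℕ) / m := hcd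
        apply Fin.ext
        rw [← Nat.div_add_mod (c : ℕ) m, ← Nat.div_add_mod (d : ℕ) m, h4, h3]
      rw [← h2.ncard_image]
      have h5 : ((fun c : Fin (β + t) => (c : ℕ) / m) ''
          {c : Fin (β + t) | i = ((c : ℕ) : ZMod m)}) ⊆ ↑(Finset.range t) := by
        rintro _ ⟨c, _, rfl⟩
        rw [Finset.coe_range, Set.mem_Iio]
        rw [Nat.div_lt_iff_lt_mul (by omega)]
        have h6 := c.2
        have h7 : t * m = t * (m - 1) + t := by
          obtain ⟨m', rfl⟩ : ∃ m', m = m' + 1 := ⟨m - 1, by omega⟩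
          simp only [Nat.add_sub_cancel]; ring
        omega
      refine (Set.ncard_le_ncard h5 (Finset.finite_toSet _)).trans ?_
      rw [Set.ncard_coe_finset, Finset.card_range]
    have h2 : {c : Fin (β + t) | i ≠ ((c : ℕ) : ZMod m)} =
        {c : Fin (β + t) | i = ((c : ℕ) : ZMod m)}ᶜ := by
      ext c; simp
    have h3 := Set.ncard_add_ncard_compl {c : Fin (β + t) | i = ((c : ℕ) : ZMod m)}
    rw [← h2, Nat.card_eq_fintype_card, Fintype.card_fin] at h3
    omega
  intro u j
  by_cases h1 : j = f u + 1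
  · subst h1
    refine (hnext u).trans ((hcount (f u)).trans ?_)
    apply Set.ncard_le_ncard _ (Set.toFinite _)
    intro c hc
    refine ⟨?_, Or.inl ⟨rfl, hc⟩⟩
    intro h; exact hone (by simpa using h)
  · by_cases h2 : f u = j + 1
    · have h3 : {v | G.Adj u v ∧ f v = j} = {v | G.Adj u v ∧ f u = f v + 1} := by
        ext v
        simp only [Set.mem_setOf_eq]
        constructor
        · rintro ⟨h3, rfl⟩; exact ⟨h3, h2⟩
        · rintro ⟨h3, h4⟩; exact ⟨h3, add_right_cancel (h4.symm.trans h2)⟩
      rw [h3]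
      refine (hprev u).trans ((hcount j).trans ?_)
      apply Set.ncard_le_ncard _ (Set.toFinite _)
      intro c hc
      refine ⟨?_, Or.inr ⟨h2, hc⟩⟩
      rw [h2]
      intro h; exact hone (by simpa using h)
    · have h3 : {v | G.Adj u v ∧ f v = j} = ∅ := by
        ext v
        simp only [Set.mem_setOf_eq, Set.mem_empty_iff_false, iff_false, not_and]
        rintro h3 rfl
        rcases hadj u v h3 with h4 | h4
        · exact h1 h4
        · exact h2 h4
      rw [h3, Set.ncard_empty]
      exact Nat.zero_le _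

end Pool.Agent.TH525.FRG
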