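import Pool.Agent.TH525.LAD.Konig
import Pool.Agent.H931R3.LAMain

set_option autoImplicit false

/-!
Linear forests from frugal colourings: if every vertex has at most `β` neighbours of each colour in
a proper vertex colouring with `m` colours, then the graph is the union of `⌈β m / 2⌉` linear
forests.
-/

namespace Pool.Agent.TH525.FRG

open Finset H931R3.LA

/-- Linear forests from an edge colouring and a rank function for every colour. -/
theorem cov_of_rank {V : Type} (G : SimpleGraph V) (L : ℕ) (φ : V → V → ℕ) (pos : ℕ → V → ℕ)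
    (hsym : ∀ u v, G.Adj u v → φ u v = φ v u) (hlt : ∀ u v, G.Adj u v → φ u v < L)
    (hne : ∀ u v, G.Adj u v → pos (φ u v) u ≠ pos (φ u v) v)
    (hlo : ∀ u v w, G.Adj u v → G.Adj u w → φ u v = φ u w →
      pos (φ u v) v < pos (φ u v) u → pos (φ u v) w < pos (φ u v) u → v = w)
    (hhi : ∀ u v w, G.Adj u v → G.Adj u w → φ u v = φ u w →
      pos (φ u v) u < pos (φ u v) v → pos (φ u v) u < pos (φ u v) w → v = w) :
    Cov G L := by
  classical
  let F : Fin L → SimpleGraph V := fun i =>
    { Adj := fun u v => G.Adj u v ∧ φ u v = i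
      symm := ⟨fun u v h => ⟨h.1.symm, by rw [← hsym u v h.1]; exact h.2⟩⟩
      loopless := ⟨fun u h => G.loopless.irrefl u h.1⟩ }
  refine ⟨F, fun i => ⟨?_, ?_⟩, ?_⟩
  · -- acyclic
    intro v c hc
    obtain ⟨u, hu, hmax⟩ := Finset.exists_max_image c.support.toFinset (pos i)
      ⟨v, by simp⟩
    rw [List.mem_toFinset] at hu
    have hcyc : (c.rotate u hu).IsCycle := hc.rotate hu
    set d := c.rotate u hu with hd
    have hnil : ¬ d.Nil := hcyc.not_nil
    have h1 : (F i).Adj u d.snd := d.adj_snd hnil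
    have h2 : (F i).Adj d.penultimate u := d.adj_penultimate hnil
    have hne' : d.snd ≠ d.penultimate := hcyc.snd_ne_penultimate
    have hm : ∀ x ∈ d.support, (F i).Adj u x → pos i x < pos i u := by
      intro x hx hxu
      rw [hd, SimpleGraph.Walk.mem_support_rotate_iff] at hx
      have h3 := hmax x (by rw [List.mem_toFinset]; exact hx)
      have h4 := hne u x hxu.1
      rw [hxu.2] at h4
      omega
    have h3 : pos i d.snd < pos i u :=
      hm _ (d.getVert_mem_support 1) h1
    have h4 : pos i d.penultimate < pos i u :=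
      hm _ (d.getVert_mem_support _) h2.symm
    have h5 : φ u d.penultimate = i := h2.symm.2
    have h6 : φ u d.snd = i := h1.2
    apply hne'
    refine hlo u d.snd d.penultimate h1.1 h2.1.symm ?_ ?_ ?_
    · rw [h6, h5]
    · rw [h6]; exact h3
    · rw [h6]; exact h4
  · -- degrees
    intro v
    have h1 : Set.InjOn (fun w => decide (pos i w < pos i v)) ((F i).neighborSet v) := by
      intro a ha b hb hab
      have ha1 : G.Adj v a := ha.1
      have hb1 : G.Adj v b := hb.1
      have ha2 : φ v a = i := ha.2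
      have hb2 : φ v b = i := hb.2
      have ha3 := hne v a ha1
      have hb3 := hne v b hb1
      rw [ha2] at ha3
      rw [hb2] at hb3
      simp only [decide_eq_decide] at hab
      by_cases h : pos i a < pos i v
      · exact hlo v a b ha1 hb1 (by rw [ha2, hb2]) (by rw [ha2]; exact h)
          (by rw [ha2]; exact hab.1 h)
      · have h' : ¬ pos i b < pos i v := fun h'' => h (hab.2 h'')
        exact hhi v a b ha1 hb1 (by rw [ha2, hb2]) (by rw [ha2]; omega) (by rw [ha2]; omega)
    rw [← Set.ncard_image_of_injOn h1]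
    refine le_trans (Set.ncard_le_ncard (Set.subset_univ _) Set.finite_univ) ?_
    rw [Set.ncard_univ]
    simp
  · ext u v
    simp only [SimpleGraph.iSup_adj, F]
    constructor
    · rintro ⟨i, h, _⟩; exact h
    · intro h; exact ⟨⟨φ u v, hlt u v h⟩, h, rfl⟩

/-- Splitting the edges between any two colour classes into `β` matchings. -/
theorem exists_slots {V : Type} [Finite V] (G : SimpleGraph V) (m β : ℕ) (f : V → ℕ)
    (hf : ∀ v, f v < m) (hne : ∀ u v, G.Adj u v → f u ≠ f v)
    (hβ : ∀ u j, {v | G.Adj u v ∧ f v = j}.ncard ≤ β) :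
    ∃ s : V → V → ℕ, (∀ u v, G.Adj u v → s u v = s v u) ∧ (∀ u v, G.Adj u v → s u v < β) ∧
      ∀ u v w, G.Adj u v → G.Adj u w → f v = f w → s u v = s u w → v = w := by
  classical
  have := Fintype.ofFinite V
  let Γ : SimpleGraph (V × Fin m) :=
    { Adj := fun x y => G.Adj x.1 y.1 ∧ (x.2 : ℕ) = f y.1 ∧ (y.2 : ℕ) = f x.1
      symm := ⟨fun _ _ h => ⟨h.1.symm, h.2.2, h.2.1⟩⟩
      loopless := ⟨fun x h => G.loopless.irrefl x.1 h.1⟩ }
  have hχ : ∀ x y, Γ.Adj x y → decide (f x.1 < x.2) ≠ decide (f y.1 < y.2) := by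
    rintro x y ⟨h1, h2, h3⟩ h
    have h4 := hne _ _ h1
    rw [decide_eq_decide, h2, h3] at h
    omega
  have hdeg : ∀ x, Γ.degree x ≤ β := by
    intro x
    refine le_trans ?_ (hβ x.1 x.2)
    rw [← SimpleGraph.card_neighborFinset_eq_degree]
    rw [Set.ncard_eq_toFinset_card']
    apply Finset.card_le_card_of_injOn (fun y => y.1)
    · intro y hy
      rw [Finset.mem_coe, SimpleGraph.mem_neighborFinset] at hy
      rw [Finset.mem_coe, Set.mem_toFinset]
      exact ⟨hy.1, hy.2.1.symm⟩
    · intro y hy z hz hyz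
      rw [Finset.mem_coe, SimpleGraph.mem_neighborFinset] at hy hz
      refine Prod.ext hyz (Fin.ext ?_)
      rw [hy.2.2, hz.2.2]
  obtain ⟨φ, h1, h2, h3⟩ := LAD.konig_graph Γ β (fun x => decide (f x.1 < x.2)) hχ hdeg
  refine ⟨fun u v => φ (u, ⟨f v, hf v⟩) (v, ⟨f u, hf u⟩), fun u v _ => h1 _ _, ?_, ?_⟩
  · intro u v h
    exact h2 _ _ ⟨h, rfl, rfl⟩
  · intro u v w hv hw hfv hs
    have e : (⟨f v, hf v⟩ : Fin m) = ⟨f w, hf w⟩ := Fin.ext hfv
    have hs' : φ (u, ⟨f v, hf v⟩) (v, ⟨f u, hf u⟩) = φ (u, ⟨f w, hf w⟩) (w, ⟨f u, hf u⟩) := hs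
    have h4 := h3 (u, ⟨f v, hf v⟩) (v, ⟨f u, hf u⟩) (w, ⟨f u, hf u⟩) ⟨hv, rfl, rfl⟩
      ⟨hw, hfv, rfl⟩ (by rw [hs', ← e])
    exact congrArg Prod.fst h4

/-- the position of the residue `d` on the zigzag path `0, 1, -1, 2, -2, ...` -/
def zig (m d : ℕ) : ℕ := if d = 0 then 0 else if 2 * d ≤ m then 2 * d - 1 else 2 * (m - d)

theorem zig_inj {m d e : ℕ} (hd : d < m) (he : e < m) (h : zig m d = zig m e) : d = e := by
  unfold zig at h
  split_ifs at h <;> omega

theorem zig_adj {m d e : ℕ} (hd : d < m) (he : e < m) (hde : d ≠ e)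
    (h : d + e = 0 ∨ d + e = 1 ∨ d + e = m ∨ d + e = m + 1) :
    zig m d = zig m e + 1 ∨ zig m e = zig m d + 1 := by
  unfold zig
  split_ifs <;> omega

/-- the residue of `i - c` modulo `m` -/
def res (m c i : ℕ) : ℕ := (i + (m - c % m)) % m

theorem res_eq {m c i : ℕ} (hi : i < m) :
    res m c i = if c % m ≤ i then i - c % m else i + m - c % m := by
  have hc : c % m < m := Nat.mod_lt _ (by omega)
  unfold res
  split_ifs with h
  · have h1 : i + (m - c % m) = (i - c % m) + m := by omega
    rw [h1, Nat.add_mod_right, Nat.mod_eq_of_lt (by omega)]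
  · rw [Nat.mod_eq_of_lt (by omega)]
    omega

theorem res_lt {m c i : ℕ} (hm : 0 < m) : res m c i < m := Nat.mod_lt _ hm

theorem res_inj {m c i j : ℕ} (hi : i < m) (hj : j < m) (h : res m c i = res m c j) : i = j := by
  have hc : c % m < m := Nat.mod_lt _ (by omega)
  rw [res_eq hi, res_eq hj] at h
  split_ifs at h <;> omega

theorem res_add {m c i j s : ℕ} (hm : 2 ≤ m) (hi : i < m) (hj : j < m)
    (h : s * m + (i + j) % m = 2 * c ∨ s * m + (i + j) % m = 2 * c + 1) :
    res m c i + res m c j = 0 ∨ res m c i + res m c j = 1 ∨ res m c i + res m c j = m ∨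
      res m c i + res m c j = m + 1 := by
  have hc : c % m < m := Nat.mod_lt _ (by omega)
  have h1 : ∃ a : ℤ, (res m c i : ℤ) = i - (c % m : ℕ) + m * a := by
    rw [res_eq hi]
    split_ifs with h'
    · exact ⟨0, by push_cast [h']; ring⟩
    · exact ⟨1, by
        have : (↑(i + m - c % m) : ℤ) = i + m - (c % m : ℕ) := by
          rw [Nat.cast_sub (by omega)]; push_cast; ring
        rw [this]; ring⟩
  have h2 : ∃ a : ℤ, (res m c j : ℤ) = j - (c % m : ℕ) + m * a := by
    rw [res_eq hj]
    split_ifs with h'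
    · exact ⟨0, by push_cast [h']; ring⟩
    · exact ⟨1, by
        have : (↑(j + m - c % m) : ℤ) = j + m - (c % m : ℕ) := by
          rw [Nat.cast_sub (by omega)]; push_cast; ring
        rw [this]; ring⟩
  obtain ⟨a, ha⟩ := h1
  obtain ⟨b, hb⟩ := h2
  have h3 : (c : ℤ) = m * (c / m : ℕ) + (c % m : ℕ) := by
    exact_mod_cast (Nat.div_add_mod c m).symm
  have h4 : ((i + j : ℕ) : ℤ) = m * ((i + j) / m : ℕ) + ((i + j) % m : ℕ) := by
    exact_mod_cast (Nat.div_add_mod (i + j) m).symm
  have hri : res m c i < m := res_lt (by omega)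
  have hrj : res m c j < m := res_lt (by omega)
  have hm' : (2 : ℤ) ≤ m := by exact_mod_cast hm
  have hri' : (res m c i : ℤ) < m := by exact_mod_cast hri
  have hrj' : (res m c j : ℤ) < m := by exact_mod_cast hrj
  have hri0 : (0 : ℤ) ≤ res m c i := by positivity
  have hrj0 : (0 : ℤ) ≤ res m c j := by positivity
  obtain ⟨ε, hε, h5⟩ : ∃ ε : ℤ, (ε = 0 ∨ ε = 1) ∧
      (s : ℤ) * m + ((i + j) % m : ℕ) = 2 * c + ε := by
    rcases h with h | h
    · exact ⟨0, Or.inl rfl, by exact_mod_cast (by omega : s * m + (i + j) % m = 2 * c + 0)⟩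
    · exact ⟨1, Or.inr rfl, by exact_mod_cast h⟩
  obtain ⟨k, hk⟩ : ∃ k : ℤ, (res m c i : ℤ) + res m c j = m * k + ε := by
    refine ⟨((i + j) / m : ℕ) + a + b + 2 * (c / m : ℕ) - s, ?_⟩
    rw [Nat.cast_add] at h4
    linear_combination ha + hb + h4 + h5 + 2 * h3
  have hk1 : k < 2 := by
    by_contra hcon
    push Not at hcon
    have : (m : ℤ) * 2 ≤ m * k := by
      apply mul_le_mul_of_nonneg_left hcon; linarith
    rcases hε with h | h <;> omega
  have hk0 : -1 < k := by
    by_contra hcon
    push Not at hcon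
    have : (m : ℤ) * k ≤ m * (-1) := by
      apply mul_le_mul_of_nonneg_left hcon; linarith
    rcases hε with h | h <;> omega
  have hk2 : k = 0 ∨ k = 1 := by omega
  rcases hk2 with hk2 | hk2 <;> rcases hε with h | h <;> subst hk2 <;> subst h
  · left; simp only [mul_zero, add_zero] at hk; exact_mod_cast hk
  · right; left; simp only [mul_zero, zero_add] at hk; exact_mod_cast hk
  · right; right; left; simp only [mul_one, add_zero] at hk; exact_mod_cast hk
  · right; right; right; simp only [mul_one] at hk; exact_mod_cast hk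

/-- **Frugal colourings.** -/
theorem cov_of_frugal {V : Type} [Finite V] (G : SimpleGraph V) (m β : ℕ) (f : V → ℕ)
    (hf : ∀ v, f v < m) (hne : ∀ u v, G.Adj u v → f u ≠ f v)
    (hβ : ∀ u j, {v | G.Adj u v ∧ f v = j}.ncard ≤ β) : Cov G ((β * m + 1) / 2) := by
  classical
  obtain ⟨s, hs1, hs2, hs3⟩ := exists_slots G m β f hf hne hβ
  have hm : ∀ u v, G.Adj u v → 2 ≤ m := by
    intro u v h
    have h1 := hne u v h
    have h2 := hf u
    have h3 := hf v
    omega
  set φ : V → V → ℕ := fun u v => (s u v * m + (f u + f v) % m) / 2 with hφ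
  set pos : ℕ → V → ℕ := fun c v => zig m (res m c (f v)) with hpos
  have key : ∀ u v, G.Adj u v → pos (φ u v) u = pos (φ u v) v + 1 ∨
      pos (φ u v) v = pos (φ u v) u + 1 := by
    intro u v h
    have h2 := hm u v h
    apply zig_adj (res_lt (by omega)) (res_lt (by omega))
    · intro h'
      exact hne u v h (res_inj (hf u) (hf v) h')
    · apply res_add (s := s u v) h2 (hf u) (hf v)
      have : φ u v = (s u v * m + (f u + f v) % m) / 2 := rfl
      omega
  have uniq : ∀ u v w, G.Adj u v → G.Adj u w → φ u v = φ u w →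
      pos (φ u v) v = pos (φ u v) w → v = w := by
    intro u v w hv hw h1 h2
    have hm2 := hm u v hv
    have h3 : f v = f w := by
      apply res_inj (hf v) (hf w) (c := φ u v)
      exact zig_inj (res_lt (by omega)) (res_lt (by omega)) h2
    refine hs3 u v w hv hw h3 ?_
    have h4 : (s u v * m + (f u + f v) % m) / 2 = (s u w * m + (f u + f w) % m) / 2 := h1
    rw [← h3] at h4
    rcases Nat.lt_trichotomy (s u v) (s u w) with h | h | h
    · have : (s u v + 1) * m ≤ s u w * m := Nat.mul_le_mul_right m h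
      rw [Nat.add_mul] at this
      omega
    · exact h
    · have : (s u w + 1) * m ≤ s u v * m := Nat.mul_le_mul_right m h
      rw [Nat.add_mul] at this
      omega
  refine cov_of_rank G _ φ pos ?_ ?_ ?_ ?_ ?_
  · intro u v h
    simp only [hφ]
    rw [hs1 u v h, add_comm (f u)]
  · intro u v h
    have h1 := hs2 u v h
    have h2 : (s u v + 1) * m ≤ β * m := Nat.mul_le_mul_right m h1
    have h3 : (f u + f v) % m < m := Nat.mod_lt _ (by have := hm u v h; omega)
    rw [Nat.add_mul] at h2
    change (s u v * m + (f u + f v) % m) / 2 < _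
    omega
  · intro u v h
    have := key u v h
    omega
  · intro u v w hv hw h1 h2 h3
    have h4 := key u v hv
    have h5 := key u w hw
    rw [← h1] at h5
    exact uniq u v w hv hw h1 (by omega)
  · intro u v w hv hw h1 h2 h3
    have h4 := key u v hv
    have h5 := key u w hw
    rw [← h1] at h5
    exact uniq u v w hv hw h1 (by omega)

end Pool.Agent.TH525.FRG
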